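import Pool.Agent.K4H1.VN.St2

/-!
# The predicates used in the statement
-/

set_option autoImplicit false

namespace Pool.Agent.K4H48.SL

open Pool.Agent.K4H1.VN Matrix

variable {H Γ Λ : Type} [Group H] [Group Γ] [Group Λ]

/-- Every element `g ≠ 1` of `Γ` has infinitely many conjugates `h g h⁻¹`, `h` in the image of `H`. -/
def RelIcc (ι : H →* Γ) : Prop :=
  ∀ g : Γ, g ≠ 1 → {y : Γ | ∃ h : H, y = ι h * g * (ι h)⁻¹}.Infinite

/-- Each of the unitaries `θ(u_h)`, `h ∈ B`, of `L(Λ)` has a Fourier coefficient of absolute value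
more than `1 - ε`; the Fourier coefficients of `θ(u_g)` are the `(θ(u_g) δ₁)(k) = (U δ_g)(k)`. -/
def AlmostOn (B : Finset H) (ε : ℝ) (ι : H →* Γ) (U : L2 Γ ≃ₗᵢ[ℂ] L2 Λ) : Prop :=
  ∀ h ∈ B, ∃ k : Λ, 1 - ε < ‖U (delta (ι h)) k‖

/-- `θ(u_g) w = c w u_k` for some `k` in `Λ` and some complex number `c` of absolute value `1`: the
isomorphism `w⁻¹ θ w` is group-like at `g`. -/
def GroupLikeVia (U : L2 Γ ≃ₗᵢ[ℂ] L2 Λ) (w : Uni Λ) (g : Γ) : Prop :=
  ∃ (c : Circle) (k : Λ), ∀ f, U (lam g (U.symm (w f))) = (c : ℂ) • w (lam k f)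

/-- The set of the `g` where `w⁻¹ θ w` is group-like contains every `g` in `Γ` for which no `x ≠ 1`
in `Γ` commutes with a positive power of each of the elements `b` such that `b` and `g b g⁻¹`
belong to this set. -/
def Propagates (U : L2 Γ ≃ₗᵢ[ℂ] L2 Λ) (w : Uni Λ) : Prop :=
  ∀ g : Γ, (∀ x : Γ, (∀ b : Γ, GroupLikeVia U w b → GroupLikeVia U w (g * b * g⁻¹) →
    ∃ N : ℕ, 1 ≤ N ∧ b ^ N * x = x * b ^ N) → x = 1) → GroupLikeVia U w g

/-- The image of `H` contains an elementary matrix `1 + m E_kl`, `m ≠ 0`, for all `k ≠ l` with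
`k ∈ K`. -/
def SeedRows {R : Type} [CommRing R] {I : Type} [Fintype I] [DecidableEq I]
    {Γ : Subgroup (SpecialLinearGroup I R)} (ι : H →* Γ) (K : Finset I) : Prop :=
  ∀ k ∈ K, ∀ l : I, k ≠ l → ∃ (h : H) (m : R), m ≠ 0 ∧ mat (ι h) = transvection k l m

/-- There is a unitary `w` in `L(Λ)` such that `w⁻¹ θ w` is group-like at all elements of `ι(H)`, and
the set of all `g` where it is group-like has the property `Propagates`. -/
def LocallyGroupLike (ι : H →* Γ) (U : L2 Γ ≃ₗᵢ[ℂ] L2 Λ) : Prop :=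
  ∃ w : Uni Λ, InVN w ∧ (∀ h : H, GroupLikeVia U w (ι h)) ∧ Propagates U w

/-- There are an isomorphism of groups `π : Γ → Λ`, a character `χ` of `Γ` and a unitary `w` in `L(Λ)`
with `θ(u_g) w = χ(g) w u_{π(g)}` for all `g` in `Γ`. -/
def GroupLike (U : L2 Γ ≃ₗᵢ[ℂ] L2 Λ) : Prop :=
  ∃ (π : Γ ≃* Λ) (χ : Γ →* Circle) (w : Uni Λ), InVN w ∧
    ∀ g f, U (lam g (U.symm (w f))) = (χ g : ℂ) • w (lam (π g) f)

/-- unitary operators from `ℓ²(Γ)` onto `ℓ²(Λ)` -/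
abbrev IsoL2 (Γ Λ : Type) [Group Γ] [Group Λ] : Type := L2 Γ ≃ₗᵢ[ℂ] L2 Λ

end Pool.Agent.K4H48.SL
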