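import Pool.Agent.K4H1.VN.Apx
import Pool.Agent.K4H1.VN.Fin
import Pool.Agent.K4H1.VN.Mx
import Pool.Agent.K4H48.SL.Defs

/-!
# An isomorphism which is almost group-like on a finite subset of a subgroup
-/

set_option autoImplicit false
set_option linter.unusedSectionVars false

namespace Pool.Agent.K4H48.SL

open scoped ComplexConjugate InnerProductSpace
open Pool.Agent.K4H1.VN Filter Topology

variable {H Γ Λ : Type} [Group H] [Group Γ] [Group Λ]

theorem rel_zero {ι : H →* Γ} (hicc : RelIcc ι) {F : Γ → ℂ}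
    (hF : ∀ g k, F (ι k * g * (ι k)⁻¹) = F g)
    (h0 : Tendsto F cofinite (𝓝 0)) {g : Γ} (hg : g ≠ 1) : F g = 0 := by
  by_contra hne
  have h1 : ∀ᶠ y in cofinite, ‖F y‖ < ‖F g‖ := by
    have h2 := h0.norm
    rw [norm_zero] at h2
    exact h2.eventually_lt_const (norm_pos_iff.2 hne)
  rw [Filter.eventually_cofinite] at h1
  refine hicc g hg (h1.subset ?_)
  rintro y ⟨k, rfl⟩
  show ¬ ‖F (ι k * g * (ι k)⁻¹)‖ < ‖F g‖
  rw [hF]
  exact lt_irrefl _

/-- the homomorphism `g ↦ U λ_g U⁻¹` -/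
noncomputable def vv (U : L2 Γ ≃ₗᵢ[ℂ] L2 Λ) : Γ →* (L2 Λ ≃ₗᵢ[ℂ] L2 Λ) where
  toFun g := (U.symm.trans (lam g)).trans U
  map_one' := by
    ext1 f
    show U (lam 1 (U.symm f)) = f
    rw [lam_one, U.apply_symm_apply]
  map_mul' g h := by
    ext1 f
    show U (lam (g * h) (U.symm f)) = U (lam g (U.symm (U (lam h (U.symm f)))))
    rw [lam_mul, U.symm_apply_apply]

theorem vv_apply (U : L2 Γ ≃ₗᵢ[ℂ] L2 Λ) (g : Γ) (f : L2 Λ) :
    vv U g f = U (lam g (U.symm f)) := rfl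

theorem vv_U (U : L2 Γ ≃ₗᵢ[ℂ] L2 Λ) (g : Γ) (f : L2 Γ) : vv U g (U f) = U (lam g f) := by
  rw [vv_apply, U.symm_apply_apply]

theorem vv_inVN {U : L2 Γ ≃ₗᵢ[ℂ] L2 Λ} (hU : IsStdIso U) (g : Γ) : InVN (vv U g) := by
  have h1 := (hU.2 (tl (lam g))).1 (inVN_lam g)
  exact h1

/-- the reflection of `ℓ²(Λ)` -/
noncomputable def flip (G : Type) [Group G] : L2 G ≃ₗᵢ[ℂ] L2 G := reix (Equiv.inv G)

theorem flip_apply (f : L2 Λ) (x : Λ) : flip Λ f x = f x⁻¹ := rfl

theorem flip_flip (f : L2 Λ) : flip Λ (flip Λ f) = f := by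
  apply L2ext
  intro x
  rw [flip_apply, flip_apply, inv_inv]

theorem flip_lam (h : Λ) (f : L2 Λ) : flip Λ (lam h f) = rho h (flip Λ f) := by
  apply L2ext
  intro x
  rw [flip_apply, lam_apply, rho_apply, flip_apply, mul_inv_rev]

theorem flip_rho (h : Λ) (f : L2 Λ) : flip Λ (rho h f) = lam h (flip Λ f) := by
  apply L2ext
  intro x
  rw [flip_apply, rho_apply, lam_apply, flip_apply, mul_inv_rev, inv_inv]

/-- an isometry in `L(Λ)` is surjective -/
theorem surj_of_inVN {S : L2 Λ →ₗᵢ[ℂ] L2 Λ} (hS : InVN S) : Function.Surjective S := by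
  let A : L2 Λ →L[ℂ] L2 Λ := (clm (flip Λ)).comp (S.toContinuousLinearMap.comp (clm (flip Λ)))
  have hA : ∀ f, A f = flip Λ (S (flip Λ f)) := fun f => rfl
  have hA' : InVN' A := by
    intro h f
    rw [hA, hA, flip_lam, hS, flip_rho]
  have hn : ∀ x, ‖A x‖ = ‖x‖ := by
    intro x
    rw [hA, LinearIsometryEquiv.norm_map, LinearIsometry.norm_map, LinearIsometryEquiv.norm_map]
  intro y
  have h1 := isometry_surj hA' hn (flip Λ y)
  rw [hA] at h1
  exact ⟨_, (flip Λ).injective h1⟩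

/-- conjugation by a unitary in the commutant does nothing on `L(Λ)` -/
theorem comm_conj {T : L2 Λ ≃ₗᵢ[ℂ] L2 Λ} (hT : ∀ h x, T (lam h x) = lam h (T x))
    {Y : L2 Λ →L[ℂ] L2 Λ} (hY : InVN Y) (f : L2 Λ) : Y (T f) = T (Y f) :=
  commutation hY (S := clm T) (fun h x => hT h x) f

/-- **Locality on a subgroup.** -/
theorem main_loc {ι : H →* Γ} (hicc : RelIcc ι) {U : L2 Γ ≃ₗᵢ[ℂ] L2 Λ} (hU : IsStdIso U)
    {π : H →* Λ} {χ : H →* Circle} {η : L2 Λ} (hη1 : ‖η‖ = 1)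
    (hη : ∀ g, vv U (ι g) (rho (π g) η) = (χ g : ℂ) • η) :
    ∃ (w : L2 Λ ≃ₗᵢ[ℂ] L2 Λ) (U' : L2 Γ ≃ₗᵢ[ℂ] L2 Λ), InVN w ∧ IsStdIso U' ∧
      (∀ X : L2 Γ →L[ℂ] L2 Γ, InVN X → ∀ f, w (U' (X (U'.symm f))) = U (X (U.symm (w f)))) ∧
      ∀ h f, U' (lam (ι h) f) = (χ h : ℂ) • lam (π h) (U' f) := by
  classical
  set v := vv U with hvdef
  have hv : ∀ g, InVN (v g) := fun g => vv_inVN hU g
  have hUv : ∀ g f, v g (U f) = U (lam g f) := fun g f => vv_U U g f
  have hiso : ∀ T : L2 Γ →L[ℂ] L2 Γ, InVN T ↔ InVN (conjU U T) := fun T => hU.2 T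
  -- orthogonality
  have hort0 : ∀ g, g ≠ 1 → ⟪η, v g η⟫_ℂ = 0 := by
    intro g hg
    refine rel_zero hicc (F := fun g => ⟪η, v g η⟫_ℂ) (fun g k => ?_) (c0_iso hUv η η) hg
    show ⟪η, v (ι k * g * (ι k)⁻¹) η⟫_ℂ = ⟪η, v g η⟫_ℂ
    have h1 : v (ι k)⁻¹ η = ((χ k : ℂ))⁻¹ • rho (π k) η := by
      have h2 := hη k
      have h3 : v (ι k)⁻¹ (v (ι k) (rho (π k) η)) = rho (π k) η := by
        rw [← v_mul, inv_mul_cancel, v_one]
      rw [h2, map_smul] at h3
      rw [← h3, smul_smul, inv_mul_cancel₀ (Circle.coe_ne_zero _), one_smul]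
    have h4 : ⟪η, v (ι k * g * (ι k)⁻¹) η⟫_ℂ = ⟪v (ι k)⁻¹ η, v g (v (ι k)⁻¹ η)⟫_ℂ := by
      rw [← v_mul, inner_v, inv_inv, mul_assoc]
    rw [h4, h1, map_smul, inner_smul_left, inner_smul_right, hv g,
      LinearIsometryEquiv.inner_map_map, ← mul_assoc]
    have h5 : conj ((χ k : ℂ))⁻¹ * ((χ k : ℂ))⁻¹ = 1 := by
      rw [← Complex.normSq_eq_conj_mul_self, Complex.normSq_eq_norm_sq, norm_inv,
        Circle.norm_coe]
      simp
    rw [h5, one_mul]
  obtain ⟨T, hTv, hT'⟩ := exists_unitary hUv hiso hη1 hort0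
  have hTd : T (delta 1) = η := by
    have h1 := hTv 1
    rwa [hU.1, v_one] at h1
  have hsymm : ∀ h x, T.symm (lam h x) = lam h (T.symm x) := by
    intro h x
    apply T.injective
    rw [T.apply_symm_apply, hT', T.apply_symm_apply]
  have hort : ∀ k : Λ, k ≠ 1 → ⟪η, rho k η⟫_ℂ = 0 := by
    intro k hk
    have h1 : ⟪η, rho k η⟫_ℂ = ⟪(delta 1 : L2 Λ), T.symm (rho k (T (delta 1)))⟫_ℂ := by
      rw [← hTd, ← LinearIsometryEquiv.inner_map_map T (delta 1), T.apply_symm_apply]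
    rw [h1, inner_delta]
    have h2 : InVN' ((clm T.symm).comp (clm (rho k))) := by
      intro h x
      show T.symm (rho k (lam h x)) = lam h (T.symm (rho k x))
      rw [rho_lam, hsymm]
    have h3 : InVN' (clm T) := hT'
    have h4 := trace_comm' h2 h3
    have h5 : ((clm T.symm).comp (clm (rho k))) ((clm T) (delta 1)) =
        T.symm (rho k (T (delta 1))) := rfl
    have h6 : (clm T) (((clm T.symm).comp (clm (rho k))) (delta 1)) =
        T (T.symm (rho k (delta 1))) := rfl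
    rw [h5, h6, T.apply_symm_apply, rho_delta, delta_apply, one_mul, if_neg] at h4
    · exact h4
    · exact fun h => hk (inv_eq_one.1 h.symm)
  have hb : Orthonormal ℂ fun k : Λ => rho k⁻¹ η := by
    refine ⟨fun k => by rw [LinearIsometryEquiv.norm_map, hη1], fun k l hkl => ?_⟩
    show ⟪rho k⁻¹ η, rho l⁻¹ η⟫_ℂ = 0
    have h1 : rho l⁻¹ η = rho k⁻¹ (rho (k * l⁻¹) η) := by
      rw [← rho_mul, inv_mul_cancel_left]
    rw [h1, LinearIsometryEquiv.inner_map_map]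
    exact hort _ fun h => hkl (mul_inv_eq_one.1 h)
  let S₀ : L2 Λ →ₗᵢ[ℂ] L2 Λ := hb.orthogonalFamily.linearIsometry
  have hS₀ : ∀ k, S₀ (delta k) = rho k⁻¹ η := by
    intro g
    have h1 := hb.orthogonalFamily.linearIsometry_apply_single (i := g) (1 : ℂ)
    rw [LinearIsometry.toSpanSingleton_apply, one_smul] at h1
    rw [← h1, delta]
  have hS₀' : InVN S₀ := by
    intro l f
    have h1 := ext_delta (T := S₀.toContinuousLinearMap.comp (clm (rho l)))
      (S := (clm (rho l)).comp S₀.toContinuousLinearMap) (fun a => ?_) f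
    · exact h1
    · show S₀ (rho l (delta a)) = rho l (S₀ (delta a))
      rw [rho_delta, hS₀, hS₀, ← rho_mul, mul_inv_rev, inv_inv]
  let w : L2 Λ ≃ₗᵢ[ℂ] L2 Λ := LinearIsometryEquiv.ofSurjective S₀ (surj_of_inVN hS₀')
  have hwS : ∀ f, w f = S₀ f := fun f => rfl
  have hw : InVN w := fun l f => hS₀' l f
  have hwk : ∀ k, w (delta k) = rho k⁻¹ η := fun k => hS₀ k
  have hvη : ∀ h, v (ι h) η = (χ h : ℂ) • rho (π h)⁻¹ η := by
    intro g
    have h1 := hη g
    rw [hv (ι g)] at h1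
    rw [← map_smul, ← h1, rho_inv_rho]
  have hvw : ∀ h f, v (ι h) (w f) = (χ h : ℂ) • w (lam (π h) f) := by
    intro g f
    have h1 := ext_delta (T := (clm (v (ι g))).comp (clm w))
      (S := (χ g : ℂ) • (clm w).comp (clm (lam (π g)))) (fun a => ?_) f
    · exact h1
    · show v (ι g) (w (delta a)) = (χ g : ℂ) • w (lam (π g) (delta a))
      rw [lam_delta, hwk, hwk, hv (ι g), hvη, map_smul, ← rho_mul, mul_inv_rev]
  have hwinv : InVN w.symm := by
    intro l f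
    apply w.injective
    rw [w.apply_symm_apply, hw, w.apply_symm_apply]
  let U' : L2 Γ ≃ₗᵢ[ℂ] L2 Λ := (U.trans T).trans w.symm
  have hU' : ∀ f, U' f = w.symm (T (U f)) := fun f => rfl
  have hU's : ∀ f, U'.symm f = U.symm (T.symm (w f)) := fun f => rfl
  have hconj : ∀ X : L2 Γ →L[ℂ] L2 Γ, ∀ f,
      w (U' (X (U'.symm f))) = T (conjU U X (T.symm (w f))) := by
    intro X f
    rw [hU', hU's, w.apply_symm_apply]
    rfl
  have hrel : ∀ X : L2 Γ →L[ℂ] L2 Γ, InVN X → ∀ f,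
      w (U' (X (U'.symm f))) = U (X (U.symm (w f))) := by
    intro X hX f
    rw [hconj, ← comm_conj hT' ((hiso X).1 hX), T.apply_symm_apply]
    rfl
  refine ⟨w, U', hw, ⟨?_, fun X => ⟨fun hX => ?_, fun hX => ?_⟩⟩, hrel, fun h f => ?_⟩
  · rw [hU', hU.1, hTd]
    apply w.injective
    rw [w.apply_symm_apply, hwk, inv_one, rho_one]
  · intro l f
    apply w.injective
    have hY : InVN (conjU U X) := (hiso X).1 hX
    rw [hrel X hX, hw, hw, hrel X hX]
    exact hY l (w f)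
  · rw [hiso]
    let P : L2 Λ →L[ℂ] L2 Λ := (clm T).comp ((conjU U X).comp (clm T.symm))
    have hP : ∀ f, P f = T (conjU U X (T.symm f)) := fun f => rfl
    have hP' : InVN P := by
      intro l f
      have h1 : ∀ f, P f = w (U' (X (U'.symm (w.symm f)))) := by
        intro f
        rw [hconj, w.apply_symm_apply, hP]
      rw [h1, h1, hwinv]
      have h2 := hX l (w.symm f)
      rw [← hw]
      exact congrArg w h2
    intro l f
    have h3 : ∀ f, conjU U X f = P f := by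
      intro f
      have h4 := comm_conj hT' hP' f
      rw [hP, T.symm_apply_apply] at h4
      exact T.injective h4
    rw [h3, h3]
    exact hP' l f
  · apply w.injective
    rw [map_smul, ← hvw, hU', hU', w.apply_symm_apply, w.apply_symm_apply, ← hUv]
    exact (comm_conj hT' (Y := clm (v (ι h))) (hv (ι h)) (U f)).symm

end Pool.Agent.K4H48.SL
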