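import Pool.Agent.K4H48.SL.Loc

/-!
# Propagation from the stabiliser of a row
-/

set_option autoImplicit false
set_option linter.unusedSectionVars false

namespace Pool.Agent.K4H48.SL

open scoped ComplexConjugate InnerProductSpace
open Pool.Agent.K4H1.VN Matrix

section general

variable {H Γ Λ : Type} [Group H] [Group Γ] [Group Λ]

theorem glk_of_via {U U' : L2 Γ ≃ₗᵢ[ℂ] L2 Λ} {w : Uni Λ} (hU' : IsStdIso U')
    (hrel : ∀ X : L2 Γ →L[ℂ] L2 Γ, InVN X → ∀ f, w (U' (X (U'.symm f))) = U (X (U.symm (w f))))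
    (g : Γ) : GroupLikeVia U w g ↔ ∃ c k, Glk U' g c k := by
  have h0 : ∀ f, w (U' (lam g (U'.symm f))) = U (lam g (U.symm (w f))) :=
    fun f => hrel (tl (lam g)) (inVN_lam g) f
  constructor
  · rintro ⟨c, k, h⟩
    refine ⟨c, k, ?_⟩
    have h1 := h0 (delta 1)
    rw [h, ← map_smul] at h1
    have h2 := w.injective h1
    have h3 : U'.symm (delta 1) = delta 1 := hU'.symm_one
    rw [h3, lam_delta, lam_delta, mul_one, mul_one] at h2
    exact h2
  · rintro ⟨c, k, h⟩
    refine ⟨c, k, fun f => ?_⟩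
    rw [← h0, h.left hU', U'.apply_symm_apply, map_smul]

/-- an element with finitely many `H`-conjugates commutes with powers -/
theorem pow_comm_of_finite {ι : H →* Γ} {g : Γ}
    (hfin : {y : Γ | ∃ h : H, y = ι h * g * (ι h)⁻¹}.Finite) (h : H) :
    ∃ N : ℕ, 1 ≤ N ∧ (ι h) ^ N * g = g * (ι h) ^ N := by
  have hnot : ¬ Function.Injective fun n : ℕ => ι (h ^ n) * g * (ι (h ^ n))⁻¹ := by
    intro hinj
    refine Set.infinite_range_of_injective hinj (hfin.subset ?_)
    rintro _ ⟨n, rfl⟩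
    exact ⟨h ^ n, rfl⟩
  rw [Function.Injective] at hnot
  push Not at hnot
  obtain ⟨n, m, he, hne⟩ := hnot
  have key : ∀ n m : ℕ, n < m → ι (h ^ n) * g * (ι (h ^ n))⁻¹ = ι (h ^ m) * g * (ι (h ^ m))⁻¹ →
      ∃ N : ℕ, 1 ≤ N ∧ (ι h) ^ N * g = g * (ι h) ^ N := by
    intro n m hnm he
    refine ⟨m - n, by omega, ?_⟩
    have h1 : ι (h ^ m) = ι (h ^ n) * (ι h) ^ (m - n) := by
      rw [map_pow, map_pow, ← pow_add]
      congr 1
      omega
    rw [h1] at he
    have h3 : ι (h ^ n) * g * (ι (h ^ n))⁻¹ =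
        ι (h ^ n) * ((ι h) ^ (m - n) * g * ((ι h) ^ (m - n))⁻¹) * (ι (h ^ n))⁻¹ := by
      rw [he]
      group
    have h2 : g = (ι h) ^ (m - n) * g * ((ι h) ^ (m - n))⁻¹ :=
      mul_left_cancel (mul_right_cancel h3)
    have h6 := congrArg (fun z => z * (ι h) ^ (m - n)) h2
    simp only [inv_mul_cancel_right] at h6
    exact h6.symm
  rcases lt_or_gt_of_ne hne with h1 | h1
  · exact key n m h1 he
  · exact key m n h1 he.symm

end general

variable {R : Type} [CommRing R] [IsDomain R] [CharZero R] {I : Type} [Fintype I]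
  [DecidableEq I]
variable {Γ : Subgroup (SpecialLinearGroup I R)} {H Λ : Type} [Group H] [Group Λ]

theorem row_of_comm {X : Matrix I I R} {k l : I} (h : E k l * X = X * E k l) (b : I) :
    X l b = if b = l then X k k else 0 := by
  have h1 := congrFun (congrFun h k) b
  rw [Matrix.mul_apply, Matrix.mul_apply, Finset.sum_eq_single l, Finset.sum_eq_single k] at h1
  · simp only [Matrix.single_apply, if_true, and_self, one_mul] at h1
    rw [h1]
    by_cases hb : b = l
    · subst hb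
      simp
    · simp [hb, Ne.symm hb]
  · intro c _ hc
    simp [Ne.symm hc]
  · simp
  · intro c _ hc
    simp [Ne.symm hc]
  · simp

/-- a matrix commuting with enough elementary matrices is scalar -/
theorem scalar_of_comm {X : Matrix I I R} (K : Finset I) (hK : 2 ≤ K.card)
    (h : ∀ k ∈ K, ∀ l, k ≠ l → E k l * X = X * E k l) :
    ∃ a : R, X = a • (1 : Matrix I I R) := by
  classical
  obtain ⟨k₁, hk₁, k₂, hk₂, hne⟩ := Finset.one_lt_card.1 (by omega : 1 < K.card)
  have h1 : ∀ l b, X l b = if b = l then X k₁ k₁ else 0 := by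
    intro l b
    by_cases hl : k₁ = l
    · subst hl
      rw [row_of_comm (h k₂ hk₂ k₁ hne.symm) b]
      have h2 := row_of_comm (h k₁ hk₁ k₂ hne) k₂
      rw [if_pos rfl] at h2
      rw [h2]
    · exact row_of_comm (h k₁ hk₁ l hl) b
  refine ⟨X k₁ k₁, ?_⟩
  ext a b
  rw [h1, Matrix.smul_apply, Matrix.one_apply, smul_eq_mul]
  by_cases hab : a = b
  · rw [if_pos hab, if_pos hab.symm, mul_one]
  · rw [if_neg hab, if_neg (Ne.symm hab), mul_zero]

theorem relIcc_of_rows (hS : NoScalar Γ) {ι : H →* Γ} {K : Finset I} (hK : 3 ≤ K.card)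
    (hr : SeedRows ι K) : RelIcc ι := by
  classical
  intro x hx
  by_contra hfin
  rw [Set.not_infinite] at hfin
  apply hx
  obtain ⟨a, ha⟩ := scalar_of_comm (X := mat x) K (by omega) (fun k hk l hkl => by
      obtain ⟨h, m, hm, hh⟩ := hr k hk l hkl
      rw [transvection_eq] at hh
      obtain ⟨M, hM, hc⟩ := pow_comm_of_finite hfin h
      have h1 := congrArg mat hc
      rw [mat_mul, mat_mul, mat_pow, hh] at h1
      exact commute_of_pow hm hM (E_sq hkl) h1)
  exact hS x a ha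

/-- the group-like elementary matrices `1 + m E_k'l` with `k' ∈ K`, `k' ≠ j`, `l ≠ k` -/
def S1 {U : L2 Γ ≃ₗᵢ[ℂ] L2 Λ} (hU : IsStdIso U) (K : Finset I) (k j : I) : Set Γ :=
  {b | b ∈ glSub hU ∧ ∃ k' ∈ K, k' ≠ j ∧ ∃ l, k' ≠ l ∧ l ≠ k ∧ ∃ m : R, m ≠ 0 ∧
    mat b = 1 + m • E k' l}

theorem mem_vc_S1 {U : L2 Γ ≃ₗᵢ[ℂ] L2 Λ} {hU : IsStdIso U} {K : Finset I} {k j : I} {a : R}
    {g : Γ} (hg : mat g = 1 + a • E k j) : g ∈ vc (S1 hU K k j) := by
  refine mem_vc_of_commute ?_
  rintro b ⟨-, k', -, hk'j, l, -, hlk, m, -, hb⟩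
  apply mat_inj
  rw [mat_mul, mat_mul, hg, hb]
  simp only [mul_add, add_mul, mul_one, one_mul, smul_mul_smul_comm, E_mul_E, if_neg hlk,
    if_neg (Ne.symm hk'j), smul_zero, add_zero]
  abel

theorem rows_of_vc {U : L2 Γ ≃ₗᵢ[ℂ] L2 Λ} {hU : IsStdIso U} {K : Finset I} {ι : H →* Γ}
    (hr : SeedRows ι K) (hH : ∀ h, ι h ∈ glSub hU) {k j : I} (hk : k ∈ K) (hkj : k ≠ j) {x : Γ}
    (hx : x ∈ vc (S1 hU K k j)) {l : I} (hl : l ≠ k) (b : I) :
    mat x l b = if b = l then mat x k k else 0 := by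
  obtain ⟨h, m, hm, hh⟩ := hr k hk l hl.symm
  rw [transvection_eq] at hh
  exact row_of_comm (vc_commute hx ⟨hH h, k, hk, hkj, l, hl.symm, hl, m, hm, hh⟩ hm
    (E_sq hl.symm) hh) b

/-- the elementary matrices with row index in `K` -/
theorem gl_rowK (hS : NoScalar Γ) {ι : H →* Γ} {K : Finset I} (hK : 3 ≤ K.card)
    (hr : SeedRows ι K) {U : L2 Γ ≃ₗᵢ[ℂ] L2 Λ} (hU : IsStdIso U) (hH : ∀ h, ι h ∈ glSub hU)
    {k j : I} (hk : k ∈ K) (hkj : k ≠ j) {a : R} {g : Γ} (hg : mat g = 1 + a • E k j) :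
    g ∈ glSub hU := by
  classical
  obtain ⟨k₂, hk₂, hk₂k, hk₂j⟩ : ∃ k₂ ∈ K, k₂ ≠ k ∧ k₂ ≠ j := by
    by_contra hcon
    push Not at hcon
    have h2 : K ⊆ ({k, j} : Finset I) := by
      intro x hx
      rw [Finset.mem_insert, Finset.mem_singleton]
      by_cases hxk : x = k
      · exact Or.inl hxk
      · exact Or.inr (hcon x hx hxk)
    have h3 := Finset.card_le_card h2
    have h4 : ({k, j} : Finset I).card ≤ 2 := Finset.card_le_two
    omega
  obtain ⟨h, m, hm, hh⟩ := hr k₂ hk₂ k hk₂k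
  rw [transvection_eq] at hh
  refine gl_step hU (S₁ := S1 hU K k j) (S₂ := S1 hU K k₂ j) (fun b hb => hb.1)
    (fun b hb => hb.1) (hH h) (mem_vc_S1 hg) ?_ ?_ ?_
  · refine mem_vc_S1 (a := m * a) ?_
    apply mat_conj_eq
    rw [hg, hh]
    simp only [mul_add, add_mul, mul_one, one_mul, smul_mul_smul_comm, E_mul_E, if_pos,
      if_neg (Ne.symm hk₂j), if_neg (Ne.symm hkj), smul_zero, add_zero]
    abel
  · intro x hx hx'
    have h1 := fun {l : I} (hl : l ≠ k) => rows_of_vc hr hH hk hkj hx hl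
    have h2 := fun {l : I} (hl : l ≠ k₂) => rows_of_vc hr hH hk₂ hk₂j hx' hl
    refine hS x (mat x k k) ?_
    ext l b
    rw [Matrix.smul_apply, Matrix.one_apply, smul_eq_mul]
    by_cases hl : l = k
    · subst hl
      rw [h2 hk₂k.symm b]
      have h3 := h1 hk₂k k₂
      rw [if_pos rfl] at h3
      rw [h3]
      by_cases hb : b = l
      · rw [if_pos hb, if_pos hb.symm, mul_one]
      · rw [if_neg hb, if_neg (Ne.symm hb), mul_zero]
    · rw [h1 hl b]
      by_cases hb : b = l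
      · rw [if_pos hb, if_pos hb.symm, mul_one]
      · rw [if_neg hb, if_neg (Ne.symm hb), mul_zero]
  · intro x hx hx'
    set y : Γ := (ι h)⁻¹ * x * ι h with hy
    have h1 := fun {l : I} (hl : l ≠ k) => rows_of_vc hr hH hk hkj hx hl
    have h2 := fun {l : I} (hl : l ≠ k) => rows_of_vc hr hH hk hkj hx' hl
    have h3 : mat (ι h) * mat y = mat x * mat (ι h) := by
      rw [← mat_mul, ← mat_mul]
      congr 1
      rw [hy]
      group
    have h4 : ∀ b, mat y k₂ b + m * mat y k b = mat x k₂ b + mat x k₂ k₂ * (if k = b then m else 0) := by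
      intro b
      have h5 := congrFun (congrFun h3 k₂) b
      rw [hh, add_mul, mul_add, one_mul, mul_one, Matrix.add_apply, Matrix.add_apply,
        Matrix.smul_mul, Matrix.mul_smul, Matrix.smul_apply, Matrix.smul_apply, smul_eq_mul,
        smul_eq_mul, Matrix.mul_apply, Matrix.mul_apply, Finset.sum_eq_single k,
        Finset.sum_eq_single k₂] at h5
      · simp only [Matrix.single_apply, true_and, if_true, one_mul, and_self] at h5
        rw [h5]
        congr 1
        by_cases hb : k = b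
        · simp [hb, mul_comm]
        · simp [hb]
      · intro c _ hc
        simp [Ne.symm hc]
      · simp
      · intro c _ hc
        simp [Ne.symm hc]
      · simp
    have h6 := h4 k
    rw [h2 hk₂k k, h1 hk₂k k, h1 hk₂k k₂, if_neg hk₂k.symm, if_neg hk₂k.symm, if_pos rfl,
      if_pos rfl, zero_add, zero_add, mul_comm (mat x k k) m] at h6
    have h7 : mat y k k = mat x k k := mul_left_cancel₀ hm h6
    have h8 : ∀ b, b ≠ k → mat y k b = 0 := by
      intro b hb
      have h9 := h4 b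
      rw [h2 hk₂k b, h1 hk₂k b, h7, if_neg (Ne.symm hb), mul_zero, add_zero] at h9
      have h10 : m * mat y k b = 0 := by
        have h11 := add_eq_left.1 h9
        exact h11
      exact (mul_eq_zero.1 h10).resolve_left hm
    have h12 : y = 1 := by
      refine hS y (mat y k k) ?_
      ext l b
      rw [Matrix.smul_apply, Matrix.one_apply, smul_eq_mul]
      by_cases hl : l = k
      · subst hl
        by_cases hb : b = l
        · rw [hb, if_pos rfl, mul_one]
        · rw [if_neg (Ne.symm hb), mul_zero, h8 b hb]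
      · rw [h2 hl b]
        by_cases hb : b = l
        · rw [if_pos hb, if_pos hb.symm, mul_one]
        · rw [if_neg hb, if_neg (Ne.symm hb), mul_zero]
    have h13 : x = ι h * y * (ι h)⁻¹ := by
      rw [hy]
      group
    rw [h13, h12, mul_one, mul_inv_cancel]

/-- the elementary matrices with row index outside of `K` -/
theorem gl_row (hΓ : Rich Γ) (hS : NoScalar Γ) {ι : H →* Γ} {K : Finset I} (hK : 3 ≤ K.card)
    (hr : SeedRows ι K) {U : L2 Γ ≃ₗᵢ[ℂ] L2 Λ} (hU : IsStdIso U) (hH : ∀ h, ι h ∈ glSub hU)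
    {o j : I} (ho : o ∉ K) (hj : o ≠ j) {a : R} {g : Γ} (hg : mat g = 1 + a • E o j) :
    g ∈ glSub hU := by
  classical
  have hginv : mat g⁻¹ = 1 + (-a) • E o j := by
    apply mat_inv_eq
    rw [hg, mul_add, mul_one, add_mul, one_mul, smul_mul_smul_comm, E_mul_E, if_neg hj.symm,
      smul_zero, add_zero, neg_smul, add_assoc, add_neg_cancel, add_zero]
  let S : Set Γ := {b | b ∈ glSub hU ∧ g * b * g⁻¹ ∈ glSub hU}
  have key : ∀ k ∈ K, k ≠ j → ∀ l, k ≠ l →
      ∃ b ∈ S, ∃ c : R, c ≠ 0 ∧ mat b = 1 + c • E k l := by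
    intro k hk hkj l hkl
    obtain ⟨h, m, hm, hh⟩ := hr k hk l hkl
    rw [transvection_eq] at hh
    by_cases hl : l = o
    · subst hl
      obtain ⟨M, hM, g', hg'⟩ := hΓ k j hkj (-(m * a))
      rw [transvection_eq] at hg'
      have hgl := gl_rowK hS hK hr hU hH hk hkj hg'
      have hM0 : (M : R) ≠ 0 := Nat.cast_ne_zero.2 (by omega)
      have hb : mat ((ι h) ^ M) = 1 + ((M : R) * m) • E k l := by
        rw [mat_pow, hh, pow_one_add (E_sq hkl)]
      refine ⟨(ι h) ^ M, ⟨(glSub hU).pow_mem (hH h) M, ?_⟩, _, mul_ne_zero hM0 hm, hb⟩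
      have h2 : g * (ι h) ^ M * g⁻¹ = (ι h) ^ M * g' := by
        apply mat_inj
        rw [mat_mul, mat_mul, mat_mul, hb, hg', hg, hginv]
        simp only [mul_add, add_mul, mul_one, one_mul, smul_mul_smul_comm, E_mul_E, if_pos,
          if_neg hj.symm, if_neg hkj.symm, if_neg hkl.symm, smul_zero, add_zero]
        rw [show (M : R) * -(m * a) = (M : R) * m * -a by ring, neg_smul]
        abel
      rw [h2]
      exact (glSub hU).mul_mem ((glSub hU).pow_mem (hH h) M) hgl
    · refine ⟨ι h, ⟨hH h, ?_⟩, _, hm, hh⟩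
      have h2 : g * ι h * g⁻¹ = ι h := by
        rw [mul_inv_eq_iff_eq_mul]
        apply mat_inj
        rw [mat_mul, mat_mul, hh, hg]
        simp only [mul_add, add_mul, mul_one, one_mul, smul_mul_smul_comm, E_mul_E,
          if_neg hkj.symm, if_neg hl, smul_zero, add_zero]
        abel
      rw [h2]
      exact hH h
  refine gl_of_conj hU (S := S) (fun b hb => ⟨hb.1, hb.2⟩) fun x hx => ?_
  obtain ⟨r, hrx⟩ := scalar_of_comm (X := mat x) (K.erase j) (by
    have := Finset.pred_card_le_card_erase (s := K) (a := j)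
    omega) (fun k hk l hkl => by
      rw [Finset.mem_erase] at hk
      obtain ⟨b, hb, c, hc, hbc⟩ := key k hk.2 hk.1 l hkl
      exact vc_commute hx hb hc (E_sq hkl) hbc)
  exact hS x r hrx

theorem gl_all (hΓ : Rich Γ) (hS : NoScalar Γ) {ι : H →* Γ} {K : Finset I} (hK : 3 ≤ K.card)
    (hr : SeedRows ι K) {U : L2 Γ ≃ₗᵢ[ℂ] L2 Λ} (hU : IsStdIso U) (hH : ∀ h, ι h ∈ glSub hU)
    (g : Γ) : ∃ c k, Glk U g c k := by
  have hI : 3 ≤ Fintype.card I := hK.trans (Finset.card_le_univ K)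
  have hE : ∀ i j : I, i ≠ j → Gd (glSub hU) (E i j : Matrix I I R) := by
    intro i j hij
    by_cases hi : i ∈ K
    · exact gd_of_rich hΓ hij fun a g hg => gl_rowK hS hK hr hU hH hi hij hg
    · exact gd_of_rich hΓ hij fun a g hg => gl_row hΓ hS hK hr hU hH hi hij hg
  refine gl_final hU hI hS ?_ g
  intro u ψ hu hψ
  obtain ⟨j, hj⟩ := Function.ne_iff.1 hu
  exact ⟨u j, hj, gd_all hE hI u ψ hψ j⟩

end Pool.Agent.K4H48.SL
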