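import Pool.Agent.K4H48.SL.Mat

/-!
# An isomorphism which is almost group-like on a finite subset of a thin subgroup

`L2 G` is the Hilbert space `ℓ²(G)` with basis `delta g`, `lam` and `rho` are the left and the
right translations, `Uni G` is the group of unitary operators of `ℓ²(G)`, and the group von Neumann
algebra `L(G)` is the commutant of the right translations: `InVN T` says that `T` belongs to it. An
isomorphism `θ` of `L(Γ)` onto `L(Λ)` is implemented by the unitary `U : ℓ²(Γ) → ℓ²(Λ)`,
`U (x δ₁) = θ(x) δ₁`, as `θ(x) = U x U⁻¹` (`IsStdIso U`; for icc groups every isomorphism is of this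
form). So `θ(u_g) = U λ_g U⁻¹`.

Let `H` be a finitely presented group with Kazhdan's property (T). There are a finite subset `B` of `H`
and `ε > 0`, which depend on `H` only, such that the following is true for ALL groups `Γ` and `Λ`, all
homomorphisms `ι : H → Γ` and all isomorphisms `θ` of `L(Γ)` onto `L(Λ)` for which each of the finitely
many unitaries `θ(u_h)`, `h ∈ ι(B)`, has a Fourier coefficient of absolute value more than `1 - ε`
(`AlmostOn B ε ι U`).

1. Suppose that each `g ≠ 1` in `Γ` has infinitely many conjugates under `ι(H)` (`RelIcc`). Then there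
is a unitary `w` in `L(Λ)` such that `w⁻¹ θ w` is group-like at all elements of `ι(H)`: the unitaries
`w⁻¹ θ(u_h) w` are multiples of elements of `Λ`. The set of all elements of `Γ` where `w⁻¹ θ w` is
group-like (a subgroup `D`) contains every `g` in `Γ` such that no `x ≠ 1` in `Γ` commutes with a
positive power of each element of `D ∩ g⁻¹ D g` (`LocallyGroupLike ι U`).

2. Let `R` be any domain of characteristic `0` and let `Γ` be a subgroup of `SL_n(R)` which contains
no scalar matrix other than `1` and a positive power of every elementary matrix `1 + r E_kl`, `r` in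
`R` (for instance a subgroup of finite index of `SL_n(O_F)`, without scalars, for any number field
`F`, or `SL_n(ℚ)`, `n` odd, which is not finitely generated). Suppose that `ι(H)` contains, for each
`k` in a set `K` of at least three indices and each `l ≠ k`, some `1 + m E_kl` with `m ≠ 0`. Then `θ`
is group-like on the whole of `Γ` up to an inner automorphism: there are an isomorphism of groups
`π : Γ → Λ`, a character `χ` and a unitary `w` in `L(Λ)` with `θ(u_g) = χ(g) w u_{π(g)} w⁻¹` for all `g`
in `Γ` (`GroupLike U`). For instance `H` is of finite index in the group of the integer matrices of determinant `1`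
which differ from the identity only in the first three rows; it is `SL_3(ℤ) ⋉ (ℤ³)^(n-3)`, which is
finitely presented and has property (T), and has infinite index in `Γ` if `n ≥ 4`, and also
for `n = 3` if `R = O_F`, `F ≠ ℚ`. Then `B` consists of integer matrices with only three rows different
from those of the identity, and `B` and `ε` depend neither on `R` nor on `Γ`.

Proof. By property (T) there is a unit vector `η` with `θ(u_h) ρ_{π(h)} η = χ(h) η` for `h` in `H`. Since
the coefficients `⟨η, θ(u_g) η⟩` are invariant under the conjugation of `g` by `H` and vanish at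
infinity, the vectors `θ(u_g) η`, `g ∈ Γ`, are orthonormal, so `η = w δ₁` for a unitary `w` in `L(Λ)`
(finiteness of `L(Γ)` and of `L(Λ)`). Replace `θ` by `w⁻¹ θ w`; now `θ` is group-like on `ι(H)`. The last
statement of 1 holds since the element `k` of `Λ` in the support of `θ(u_g)` is determined by how it
conjugates the images of the elements of `g⁻¹ D g ∩ D`. For 2 let `g = 1 + a E_kj` with `k ∈ K`, let
`k' ≠ k, j` be another element of `K` and let `h = 1 + m E_k'k` be in `ι(H)`. Then `g` commutes with a set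
`S₁` of elements of `D`, and `g' = g⁻¹ h g h⁻¹` with a set `S₂` of such elements, and no `x ≠ 1` in `Γ`
commutes with powers of all elements of `S₁ ∪ S₂`, or of `S₁ ∪ h S₁ h⁻¹`. So the supports of `θ(u_g)`,
`θ(u_g')` and `θ(u_(h g h⁻¹)) = θ(u_g) θ(u_g')` lie in subgroups `P₁`, `P₂`, `P₃` of `Λ` such that
`P₁ ∩ P₂ = P₁ ∩ P₃ = 1`, and it follows that these supports are points. If `g = 1 + a E_oj` with `o`
outside `K`, then `D ∩ g⁻¹ D g` contains powers of `1 + m E_kl`, `m ≠ 0`, for all `k ≠ j` in `K` and all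
`l ≠ k`, and only scalar matrices commute with these; so `θ` is group-like at `g` by 1. So it is
group-like at a power of each elementary matrix, hence at powers of all `1 + v φ` in `Γ`, and on `Γ`.
-/

set_option autoImplicit false

namespace Pool.Agent.K4H48.SL.SubgroupLocality

open Pool.Agent.K4H1.VN Pool.Agent.K4H48.SL
open Pool.Agent.Y276.Rig (PropertyT)

theorem result (H : Type) [Group H] [Group.IsFinitelyPresented H] (hT : PropertyT H) :
    ∃ (B : Finset H) (ε : ℝ), 0 < ε ∧
      (∀ (Γ Λ : Type) [Group Γ] [Group Λ] (ι : H →* Γ) (U : IsoL2 Γ Λ), RelIcc ι → IsStdIso U →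
        AlmostOn B ε ι U → LocallyGroupLike ι U) ∧
      ∀ (R : Type) [CommRing R] [IsDomain R] [CharZero R] (I : Type) [Fintype I]
        [DecidableEq I] (Γ : Subgroup (Matrix.SpecialLinearGroup I R)) (Λ : Type) [Group Λ]
        (K : Finset I) (ι : H →* Γ) (U : IsoL2 Γ Λ), 3 ≤ K.card → Rich Γ → NoScalar Γ →
        SeedRows ι K → IsStdIso U → AlmostOn B ε ι U → GroupLike U := by
  obtain ⟨B, ε, hε, hB⟩ := exists_intertwiner (Γ := H) hT
  have main : ∀ (Γ Λ : Type) [Group Γ] [Group Λ] (ι : H →* Γ) (U : L2 Γ ≃ₗᵢ[ℂ] L2 Λ), RelIcc ι →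
      IsStdIso U → AlmostOn B ε ι U →
      ∃ (w : Uni Λ) (U' : L2 Γ ≃ₗᵢ[ℂ] L2 Λ), InVN w ∧ IsStdIso U' ∧
      (∀ X : L2 Γ →L[ℂ] L2 Γ, InVN X → ∀ f, w (U' (X (U'.symm f))) = U (X (U.symm (w f)))) ∧
      ∀ h : H, ∃ c k, Glk U' (ι h) c k := by
    intro Γ Λ _ _ ι U hicc hU hBU
    obtain ⟨π, χ, η, hη0, hη⟩ := hB Λ ((vv U).comp ι) (fun g => vv_inVN hU (ι g)) (fun g hg => by
      obtain ⟨k, hk⟩ := hBU g hg
      refine ⟨k, ?_⟩
      show 1 - ε < ‖U (lam (ι g) (U.symm (delta 1))) k‖
      rw [hU.symm_one, lam_delta, mul_one]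
      exact hk)
    have hn : ‖η‖ ≠ 0 := norm_ne_zero_iff.2 hη0
    have hη1 : ‖((‖η‖⁻¹ : ℝ) : ℂ) • η‖ = 1 := by
      rw [norm_smul, Complex.norm_real, norm_inv, norm_norm, inv_mul_cancel₀ hn]
    have hη2 : ∀ g, vv U (ι g) (rho (π g) (((‖η‖⁻¹ : ℝ) : ℂ) • η)) =
        (χ g : ℂ) • (((‖η‖⁻¹ : ℝ) : ℂ) • η) := by
      intro g
      have h1 : vv U (ι g) (rho (π g) η) = (χ g : ℂ) • η := hη g
      rw [map_smul, map_smul, h1, smul_comm]
    obtain ⟨w, U', hw, hU', hrel, hgl⟩ := main_loc hicc hU hη1 hη2
    refine ⟨w, U', hw, hU', hrel, fun h => ⟨χ h, π h, ?_⟩⟩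
    have h1 := hgl h (delta 1)
    rw [lam_delta, mul_one, hU'.1, lam_delta, mul_one] at h1
    exact h1
  refine ⟨B, ε, hε, fun Γ Λ _ _ ι U hicc hU hBU => ?_,
    fun R _ _ _ I _ _ Γ Λ _ K ι U hK hΓ hS hr hU hBU => ?_⟩
  · obtain ⟨w, U', hw, hU', hrel, hgl⟩ := main Γ Λ ι U hicc hU hBU
    have hvia := fun g => glk_of_via hU' hrel g
    refine ⟨w, hw, fun h => (hvia _).2 (hgl h), fun g hg => (hvia g).2 ?_⟩
    refine gl_of_conj hU' (S := {b | (∃ c k, Glk U' b c k) ∧ ∃ c k, Glk U' (g * b * g⁻¹) c k})
      (fun b hb => hb) fun x hx => hg x fun b hb hb' => ?_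
    exact hx b ⟨(hvia b).1 hb, (hvia _).1 hb'⟩
  · obtain ⟨w, U', hw, hU', hrel, hgl⟩ := main Γ Λ ι U (relIcc_of_rows hS hK hr) hU hBU
    obtain ⟨π, χ, h⟩ := exists_equiv hU' fun g => gl_all hΓ hS hK hr hU' hgl g
    refine ⟨π, χ, w, hw, fun g f => ?_⟩
    have h1 : w (U' (lam g (U'.symm f))) = U (lam g (U.symm (w f))) :=
      hrel (tl (lam g)) (inVN_lam g) f
    rw [← h1, h, U'.apply_symm_apply, map_smul]

end Pool.Agent.K4H48.SL.SubgroupLocality
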